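import Pool.Agent.W420.BF.Fin
import Pool.Agent.W420.BF.Join
import Pool.Agent.W461.BF.Perm
import Pool.Agent.W119.BF.Leaf
import Pool.Agent.W887.BF.Three
import Pool.Agent.W351.BF.Red
import Pool.Agent.TH497.BF.Fin
import Pool.Agent.Y425.BF6.Fin
import Pool.Agent.V11177.EC.SixB

/-!
Quadruple covers by six even subgraphs: gluing along edge cuts with at most three edges and along
two vertices.

A finite graph, loops and parallel edges allowed, has vertex set `V` and edge set `E`; the ends of
the edge `e` are `s e` and `t e`. The operations on graphs keep `V` and `E`: vertices may become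
isolated and edges may become loops.

Definitions in `Pool.Agent.V11177.EC.Main`:
* `cs s t Z`, `cutn s t Z`: the set and the number of edges with exactly one end in `Z`;
* `col Z z`: the map that sends all vertices of `Z` to `z` and fixes the others; the graph with ends
  `col Z z (s e)`, `col Z z (t e)` arises by identifying all vertices of `Z` with `z`;
* `rs s F u`, `rt t F e₀ u v`: the ends in the graph in which the edges in `F` are replaced: `e₀`
  joins `u` to `v`, the other edges in `F` become loops at `u`;
* `Joins s t F u v`: each vertex set containing `u` and not `v` is left by an edge in `F`;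
* `Sep s t F u v`: a vertex that is an end of an edge in `F` and of an edge not in `F` is `u` or `v`;
* `Dec P`: the least class of graphs that contains all graphs with `P`, and contains a graph
  - if there are a vertex set `Z`, left by at most three edges, and vertices `z ∈ Z`, `z' ∉ Z` such
    that the graph obtained by identifying all vertices of `Z` and the graph obtained by identifying
    all vertices outside `Z` are in the class (`glue`);
  - if there are an edge set `F` and vertices `u`, `v` (possibly equal), the only common vertices of
    `F` and its complement, both of which join `u` and `v`, such that the graphs obtained by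
    replacing `F`, and by replacing its complement, by one edge from `u` to `v` are in the class
    (`sum`).
-/

set_option autoImplicit false

open Finset

namespace Pool.Agent.Results.MP_40718a_co.SmallCutGluing

open Pool.Agent.V11177.EC

variable {V E : Type}

/-- the carving width is at most five: some binary tree `T` whose leaves are labelled bijectively by
the vertices is such that for each subtree at most five edges leave the set of its leaves -/
def CarvingWidthLEFive [Fintype E] (s t : E → V) : Prop :=
  ∃ T : Pool.Agent.W420.BF.Tr V, T.set = Set.univ ∧ T.Nodup ∧ T.Width s t 5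

/-- the cutwidth is at most six: the vertices can be numbered injectively by natural numbers such
that at most six edges leave each set of vertices with numbers less than `n` -/
def CutwidthLESix (s t : E → V) : Prop :=
  ∃ f : V → ℕ, Function.Injective f ∧ ∀ n, cutn s t {v | f v < n} ≤ 6

/-- tree decomposition of the graph, with bags `bag i` for the nodes `i` of the tree `T` -/
def IsTreeDecomposition {ι : Type} (s t : E → V) (T : SimpleGraph ι) (bag : ι → Finset V) : Prop :=
  T.IsTree ∧ (∀ v, ∃ i, v ∈ bag i) ∧ (∀ e, ∃ i, s e ∈ bag i ∧ t e ∈ bag i) ∧
    ∀ (i j : ι) (p : T.Walk i j), p.IsPath → ∀ k ∈ p.support, ∀ v, v ∈ bag i → v ∈ bag j →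
      v ∈ bag k

/-- the treewidth is at most four -/
def TreewidthLEFour (s t : E → V) : Prop :=
  ∃ (ι : Type) (_ : Fintype ι) (T : SimpleGraph ι) (bag : ι → Finset V),
    IsTreeDecomposition s t T bag ∧ ∀ i, (bag i).card ≤ 5

/-- the graph arises by identifying vertices from a loopless bridgeless cubic graph that becomes
bipartite after deleting at most three edges: that graph has vertex set `Fin n` and edges
`ends (φ e)`; `MGraph 3 ends` means that it has no loops, that all degrees are three and that at
least three edges leave each set with an odd number of vertices; `f` is the identification -/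
def FromNearlyBipartite (s t : E → V) : Prop :=
  ∃ (n m : ℕ) (ends : Fin m → Sym2 (Fin n)) (φ : E ≃ Fin m) (f : Fin n → V),
    H76FC.MGraph 3 ends ∧
    (∃ (T : Finset (Fin m)) (c : Fin n → Bool), T.card ≤ 3 ∧
      ∀ e, e ∉ T → ∀ u v, ends e = s(u, v) → c u ≠ c v) ∧
    ∀ e, s(s e, t e) = (ends (φ e)).map f

open Classical in
/-- all degrees in `C` are even, a loop counting twice -/
def IsEven (s t : E → V) (C : Finset E) : Prop :=
  ∀ v, Even (∑ e ∈ C, ((if s e = v then 1 else 0) + (if t e = v then 1 else 0)))

open Classical in
/-- the graph is the union of two even subgraphs (equivalently, it has a nowhere-zero 4-flow) -/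
def UnionOfTwo [Fintype E] (s t : E → V) : Prop :=
  ∃ C₁ C₂ : Finset E, IsEven s t C₁ ∧ IsEven s t C₂ ∧ C₁ ∪ C₂ = univ

/-- the basic graphs -/
def Basic [Fintype E] (s t : E → V) : Prop :=
  CarvingWidthLEFive s t ∨ CutwidthLESix s t ∨ TreewidthLEFour s t ∨ FromNearlyBipartite s t ∨
    UnionOfTwo s t

theorem cutn_card [Fintype E] (s t : E → V) (Z : Set V) (F : Finset E)
    (hF : ∀ e, e ∈ F ↔ ¬ (s e ∈ Z ↔ t e ∈ Z)) : cutn s t Z = F.card := by
  unfold cutn
  rw [← Set.ncard_coe_finset]
  congr 1
  ext e
  rw [mem_cs, mem_coe, hF]

open Classical in
theorem even_of [Fintype E] (s t : E → V) (C : Finset E) (v : V)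
    (h : Even ((C.filter (fun e => s e = v)).card + (C.filter (fun e => t e = v)).card)) :
    Even (∑ e ∈ C, ((if s e = v then 1 else 0) + (if t e = v then 1 else 0))) := by
  rwa [sum_add_distrib, ← card_filter, ← card_filter]

open Classical in
theorem basic_six [Fintype V] [Fintype E] (s t : E → V) (h : Basic s t)
    (hb : ∀ Z, cutn s t Z ≠ 1) : Six s t := by
  rcases h with h | h | h | h | h
  · obtain ⟨T, hT, hN, hW⟩ := h
    have hthree : Pool.Agent.W420.BF.StmThree := Pool.Agent.W887.BF.three Pool.Agent.W119.BF.leaf
      (Pool.Agent.W420.BF.join Pool.Agent.W461.BF.act)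
    obtain ⟨f, hf⟩ := Pool.Agent.W351.BF.red Pool.Agent.W461.BF.act Pool.Agent.W461.BF.trans hthree
      V E s t T hN hW (fun e => by rw [hT]; exact ⟨Set.mem_univ _, Set.mem_univ _⟩) (fun Z => by
        rw [← cutn_card s t Z _ (fun e => by unfold Pool.Agent.W420.BF.cut; simp)]
        exact hb Z)
    rw [hT] at hf
    obtain ⟨C, h1, h2⟩ := Pool.Agent.W420.BF.fin_cover s t f hf
    exact ⟨C, fun i v => even_of s t _ v (h1 i v), h2⟩
  · obtain ⟨f, hf, hn⟩ := h
    obtain ⟨C, h1, h2⟩ := Pool.Agent.Y425.BF6.final V E s t (fun Z => by
        rw [← cutn_card s t (Z : Set V) _ (fun e => by simp)]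
        exact hb _) ⟨f, hf, fun n => by
        rw [← cutn_card s t {v | f v < n} _ (fun e => by simp)]
        exact hn n⟩
    refine ⟨C, fun i v => even_of s t _ v ?_, h2⟩
    convert h1 i v
  · obtain ⟨ι, _, T, bag, ⟨t1, _, t2, t3⟩, t4⟩ := h
    have hTD : TH499.TF.HasTD 5 s t := TH499.TF.HasTD.of_tree t1 t3 t2 t4
    have hcut : TH676.A.Br s t ∅ ∅ := by
      intro Y _ hY
      rw [sdiff_empty] at hY
      apply hb (Y : Set V)
      rw [cutn_card s t (Y : Set V) (TH676.A.crs s t Y) (fun e => by
        rw [TH676.A.mem_crs]; simp)]
      exact hY
    obtain ⟨C, h1, h2⟩ := TH497.BF.bf4 hTD hcut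
    exact ⟨C, fun i v => by convert h1 i v, h2⟩
  · obtain ⟨n, m, ends, φ, f, hG, ⟨T, c, hT, hc⟩, hst⟩ := h
    exact six_near s t ends φ f hG T hT c hc hst
  · obtain ⟨C₁, C₂, h1, h2, h3⟩ := h
    exact six_two s t C₁ C₂ h1 h2 h3

open Classical in
/-- Let `G` be a finite graph (loops and parallel edges allowed) in which no vertex set is left by
exactly one edge. If `G` is in the least class of graphs that contains all graphs of carving width
at most five, of cutwidth at most six, of treewidth at most four, all graphs that arise by
identifying vertices from a bridgeless cubic graph which is bipartite up to three edges, all graphs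
with a nowhere-zero 4-flow, and is closed under gluing along edge cuts with at most three edges and
along two vertices (see `Dec` above), then `G` has six even subgraphs such that each edge is in
exactly four of them. -/
theorem result (V E : Type) [Fintype V] [Fintype E] (s t : E → V)
    (hbridge : ∀ Z : Set V, cutn s t Z ≠ 1) (h : Dec Basic s t) :
    ∃ C : Fin 6 → Finset E, (∀ i, IsEven s t (C i)) ∧
      ∀ e, (univ.filter (fun i => e ∈ C i)).card = 4 :=
  six_dec Basic (fun s t h1 h2 => basic_six s t h1 h2) s t h hbridge

end Pool.Agent.Results.MP_40718a_co.SmallCutGluing
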